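import Pool.Agent.Work.MP_c58d8b_pr.FC.All

/-!
MP_c58d8b_pr (transfer of `p_h < p_u` between graphs sharing a transitive group): `p_h < p_u`, and
the value of `p_h`, for transitive graphs with a spectral gap and few short cycles, that is, with
large girth or large degree; unimodular or not.
-/

set_option autoImplicit false

namespace Pool.Agent.Results.MP_c58d8b_pr.FewShortCycles

open Pool.Agent.Work.MP_c58d8b_pr Pool.Agent.Work.MP_c58d8b_pr.SO

universe u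

/-- For all `0 < δ < 1` and `ε > 0` there are `κ > 0` and `θ < 1` with the following property. Let `Γ`
be a transitive group of automorphisms (closed or not) of the infinite connected locally finite
graph `G'` of degree `d` and girth at least `g ≥ 3`, `σ = ∑_{y ~ o} √w(y)`,
`m = ∑_{y ~ o} √w(y) |log w(y)|`, `a ≥ |log w(y)|` for `y ~ o`. If the adjacency operator has norm at
most `A` on `ℓ²(V)`, `2 √(d - 1) ≤ A ≤ (1 - δ) σ`, and `d θ^g ≤ κ σ²`, `d θ^g a ≤ κ σ m`, then with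
`α = (σ + √(σ² - 4 (d - 1))) / 2`:
`1 / α ≤ p_h ≤ (1 + ε) / α`, `p_u ≥ (1 + δ) / α` and `p_h < p_u`. -/
theorem result (δ ε : ℝ) (hδ : 0 < δ) (hδ1 : δ < 1) (hε : 0 < ε) :
    ∃ κ θ : ℝ, 0 < κ ∧ 0 < θ ∧ θ < 1 ∧
      ∀ (V : Type u) [Infinite V] (Γ : Subgroup (Equiv.Perm V)) (G' : SimpleGraph V),
        G'.Connected → LocFinite G' → Preserves Γ G' → Transitive Γ →
        ∀ (o : V) (A a α : ℝ) (g : ℕ), 3 ≤ g → (g : ℕ∞) ≤ G'.egirth →
        2 * √(((nb G' o).card : ℝ) - 1) ≤ A → A ≤ (1 - δ) * sig Γ G' o → Sp G' A →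
        (∀ y ∈ nb G' o, |Real.log (weight Γ y o)| ≤ a) →
        (nb G' o).card * θ ^ g ≤ κ * sig Γ G' o ^ 2 →
        (nb G' o).card * θ ^ g * a ≤ κ * sig Γ G' o * mom Γ G' o →
        α = (sig Γ G' o + √(sig Γ G' o ^ 2 - 4 * (((nb G' o).card : ℝ) - 1))) / 2 →
          1 ≤ α * ph G' Γ ∧ α * ph G' Γ ≤ 1 + ε ∧ 1 + δ ≤ α * pu G' ∧ ph G' Γ < pu G' := by
  obtain ⟨κ, θ, h1, h2, h3, h⟩ := FC.all_FZ δ ε hδ hδ1 hε
  exact ⟨κ, θ, h1, h2, h3, fun V _ Γ G' c l p t => h V Γ G' ⟨c, l, p, t⟩⟩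

end Pool.Agent.Results.MP_c58d8b_pr.FewShortCycles
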