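import Pool.Agent.Work.MP_c58d8b_pr.All

/-!
MP_c58d8b_pr (transfer of `p_h < p_u` between graphs sharing a transitive group): Q1 holds for all
graphs with more than one end.
-/

set_option autoImplicit false

namespace Pool.Agent.Results.MP_c58d8b_pr.MoreThanOneEnd

open Pool.Agent.Work.MP_c58d8b_pr

universe u

/-- Let `G` and `G'` be connected locally finite graphs on the same vertex set `V`, and let `Γ` be
a group of automorphisms of both of them which acts transitively on `V` (closed or not). Suppose
that `G` has more than one end. If `p_h(G, Γ) < p_u(G)`, then `p_h(G', Γ) < p_u(G') = 1`. -/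
theorem result {V : Type u} (Γ : Subgroup (Equiv.Perm V)) (G G' : SimpleGraph V)
    (hG : G.Connected) (hG' : G'.Connected) (lG : LocFinite G) (lG' : LocFinite G')
    (pG : Preserves Γ G) (pG' : Preserves Γ G') (tr : Transitive Γ) (h2 : TwoEnds G)
    (h : ph G Γ < pu G) : ph G' Γ < pu G' ∧ pu G' = 1 :=
  all Γ G G' hG hG' lG lG' pG pG' tr h2 h

end Pool.Agent.Results.MP_c58d8b_pr.MoreThanOneEnd
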