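import Pool.Agent.Work.MP_c58d8b_pr.PG.Final

/-!
MP_c58d8b_pr (transfer of `p_h < p_u` between graphs sharing a transitive group): `p_h < p_u` for ALL
graphs which are invariant under a product of two groups acting on two regular trees, one of them
fixing an end. These graphs are one-ended, the group is nonunimodular and nonamenable.
-/

set_option autoImplicit false

namespace Pool.Agent.Results.MP_c58d8b_pr.ProductOfTrees

open Pool.Agent.Work.MP_c58d8b_pr Pool.Agent.Work.MP_c58d8b_pr.PT

universe u

/-- Let `T` and `T'` be regular trees of degrees `a + 1`, `b + 1` (`a, b ≥ 2`) with distinguished ends,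
given by parent maps `par`, `par'` and height functions. Let `A` be a group of automorphisms of `T` which
is transitive on the pairs of vertices at each distance and whose elements commuting with `par` (fixing
the end) are transitive on `T`. Let `B` be a transitive group of permutations of `T'` commuting with
`par'` (automorphisms of `T'` fixing the end). Let `Γ = A × B`. Then `p_h(G', Γ) < p_u(G')` for every
connected locally finite `Γ`-invariant graph `G'` on `T × T'`. -/
theorem result {T T' : Type u} (par : T → T) (h : T → ℤ) (a : ℕ) (tT : Tr par h a)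
    (par' : T' → T') (h' : T' → ℤ) (b : ℕ) (tT' : Tr par' h' b)
    (A : Subgroup (Equiv.Perm T)) (isoA : ∀ α ∈ A, ∀ x y, td par (α x) (α y) = td par x y)
    (homA : ∀ x y x₁ y₁, td par x y = td par x₁ y₁ → ∃ α ∈ A, α x = x₁ ∧ α y = y₁)
    (endA : ∀ x y, ∃ α ∈ A, (∀ z, α (par z) = par (α z)) ∧ α x = y)
    (B : Subgroup (Equiv.Perm T')) (endB : ∀ β ∈ B, ∀ z, β (par' z) = par' (β z))
    (trB : ∀ x y, ∃ β ∈ B, β x = y)
    (G' : SimpleGraph (T × T')) (hG : G'.Connected) (lG : LocFinite G')
    (pG : Preserves (prodGrp A B) G') :
    ph G' (prodGrp A B) < pu G' :=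
  PGF.f_PG_YZ
    { T := T, par := par, h := h, a := a, tr := tT, T' := T', par' := par', h' := h', b := b,
      tr' := tT', A := A, iso := isoA, hom := homA, mov := endA, B := B, com' := endB, mov' := trB,
      G := G', conn := hG, lf := lG,
      inv := fun α hα β hβ u v => pG (Equiv.prodCongr α β) ⟨α, hα, β, hβ, rfl⟩ u v }

/-- The group `fullA par` of all automorphisms of `T` and the group `fullB par` of all automorphisms
which fix the end satisfy the hypotheses on `A` and `B`. -/
theorem full_groups {T : Type u} (par : T → T) (h : T → ℤ) (a : ℕ) (tT : Tr par h a) :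
    (∀ x y, ∃ β ∈ fullB par, β x = y) ∧
    (∀ x y, ∃ α ∈ fullA par, (∀ z, α (par z) = par (α z)) ∧ α x = y) ∧
    (∀ x y x₁ y₁, td par x y = td par x₁ y₁ → ∃ α ∈ fullA par, α x = x₁ ∧ α y = y₁) :=
  PGF.f_PT_EB T par h a tT

end Pool.Agent.Results.MP_c58d8b_pr.ProductOfTrees
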