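import Pool.Agent.Work.MP_c58d8b_pr.SO.All

/-!
MP_c58d8b_pr (transfer of `p_h < p_u` between graphs sharing a transitive group): `p_h < p_u` for all
large powers `G^k` of every graph `G` which is not weighted-amenable, and for all invariant graphs
between `G^k` and `G^(C k)` of comparable degree.
-/

set_option autoImplicit false

namespace Pool.Agent.Results.MP_c58d8b_pr.SpreadOut

open Pool.Agent.Work.MP_c58d8b_pr Pool.Agent.Work.MP_c58d8b_pr.SO

universe u

/-- Let `Γ` be a transitive group of automorphisms (closed or not) of the connected locally finite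
graph `G`, and let `G` be not weighted-amenable. For a graph `G'` on `V` let
`σ(G') = ∑_{y ~ o} √w(y)`. For every `C` there is `c > 1` such that for every `ε > 0`, for all large `k`
and all `Γ`-invariant graphs `G'` with `G^k ≤ G' ≤ G^(C k)`, `d(G') ≤ C d(G^k)` and
`σ(G') ≤ C σ(G^k)` (for example `G' = G^k`):
`1 / σ(G') ≤ p_h(G', Γ) ≤ (1 + ε) / σ(G')`, `p_u(G') ≥ c / σ(G')` and `p_h(G', Γ) < p_u(G')`. -/
theorem result {V : Type u} (Γ : Subgroup (Equiv.Perm V)) (G : SimpleGraph V)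
    (hG : G.Connected) (lG : LocFinite G) (pG : Preserves Γ G) (tr : Transitive Γ)
    (na : NonAmen G Γ) (C : ℕ) (hC : 1 ≤ C) :
    ∃ c : ℝ, 1 < c ∧ ∀ ε : ℝ, 0 < ε → ∃ k₀ : ℕ, ∀ k ≥ k₀, ∀ G' : SimpleGraph V,
      Preserves Γ G' → pow G k ≤ G' → G' ≤ pow G (C * k) →
      ∀ o : V, (nb G' o).card ≤ C * (nb (pow G k) o).card →
        sig Γ G' o ≤ C * sig Γ (pow G k) o →
          1 ≤ sig Γ G' o * ph G' Γ ∧ sig Γ G' o * ph G' Γ ≤ 1 + ε ∧
          c ≤ sig Γ G' o * pu G' ∧ ph G' Γ < pu G' :=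
  all_ZZ V Γ G ⟨hG, lG, pG, tr⟩ na C hC

end Pool.Agent.Results.MP_c58d8b_pr.SpreadOut
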